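import Pool.Agent.W800.AC.D3d
import Pool.Agent.W800.AC.Gen
import Pool.Agent.Results.MP_32f00d_an.PlanarExtremalRegular

/-!
# Advection can lower the critical dimension of extremal solutions

Negative answer to Q1: for a suitable nonlinearity `f` of type (S) which has a critical dimension
`N_f > 3`, the extremal solution of `-Δu + c·∇u = λ f(u)` on the unit ball of `ℝ³` is singular for
a suitable smooth vector field `c`.
-/

set_option autoImplicit false
open MeasureTheory Filter Topology Set Metric Laplacian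
open scoped ContDiff

namespace Pool.Agent.Results.MP_2166fc_an.AdvectionLowersDimension

/-- Nonlinearities of type (S): smooth, increasing and convex on `[0,1)`, `f(0) = 1` and
`f(t) → +∞` as `t ↗ 1`. -/
structure IsTypeS (f : ℝ → ℝ) : Prop where
  smooth : ContDiffOn ℝ ∞ f (Set.Ico 0 1)
  increasing : StrictMonoOn f (Set.Ico 0 1)
  convex : ConvexOn ℝ (Set.Ico 0 1) f
  at_zero : f 0 = 1
  blow_up : Tendsto f (𝓝[<] 1) atTop

/-- `Ω` is a bounded smooth domain of `ℝⁿ`: open, bounded, connected and nonempty, and near each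
boundary point `Ω` is the sublevel set `{ρ < 0}` of a smooth function `ρ` with nonvanishing
gradient on `∂Ω = {ρ = 0}`. -/
structure IsSmoothBoundedDomain {n : ℕ} (Ω : Set (EuclideanSpace ℝ (Fin n))) : Prop where
  isOpen : IsOpen Ω
  bounded : Bornology.IsBounded Ω
  connected : IsConnected Ω
  boundary : ∀ x ∈ frontier Ω, ∃ (W : Set (EuclideanSpace ℝ (Fin n)))
    (ρ : EuclideanSpace ℝ (Fin n) → ℝ), IsOpen W ∧ x ∈ W ∧ ContDiffOn ℝ ∞ ρ W ∧
      (∀ y ∈ W, ρ y = 0 → fderiv ℝ ρ y ≠ 0) ∧ (∀ y ∈ W, y ∈ Ω ↔ ρ y < 0) ∧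
      (∀ y ∈ W, y ∈ frontier Ω ↔ ρ y = 0)

/-- `u` is a classical solution of `-Δu + c·∇u = l f(u)` in `Ω`, `u = 0` on `∂Ω`, where
`u ∈ C²(Ω) ∩ C(closure Ω)` takes values in the domain `[0,1)` of `f`. -/
structure IsSolution {n : ℕ} (Ω : Set (EuclideanSpace ℝ (Fin n)))
    (c : EuclideanSpace ℝ (Fin n) → EuclideanSpace ℝ (Fin n)) (f : ℝ → ℝ) (l : ℝ)
    (u : EuclideanSpace ℝ (Fin n) → ℝ) : Prop where
  contDiffOn : ContDiffOn ℝ 2 u Ω
  continuousOn : ContinuousOn u (closure Ω)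
  nonneg : ∀ x ∈ Ω, 0 ≤ u x
  lt_one : ∀ x ∈ Ω, u x < 1
  equation : ∀ x ∈ Ω, -(Laplacian.laplacian u x) + fderiv ℝ u x (c x) = l * f (u x)
  boundary : ∀ x ∈ frontier Ω, u x = 0

/-- `u` is the minimal (smallest) solution. -/
def IsMinimalSolution {n : ℕ} (Ω : Set (EuclideanSpace ℝ (Fin n)))
    (c : EuclideanSpace ℝ (Fin n) → EuclideanSpace ℝ (Fin n)) (f : ℝ → ℝ) (l : ℝ)
    (u : EuclideanSpace ℝ (Fin n) → ℝ) : Prop :=
  IsSolution Ω c f l u ∧ ∀ v, IsSolution Ω c f l v → ∀ x ∈ closure Ω, u x ≤ v x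

/-- `ls` is the critical parameter `λ*`, `u l` (for `0 < l < λ*`) the branch of minimal solutions
and `us` the extremal solution `u* = lim_{l ↗ λ*} u l`. -/
structure IsExtremal {n : ℕ} (Ω : Set (EuclideanSpace ℝ (Fin n)))
    (c : EuclideanSpace ℝ (Fin n) → EuclideanSpace ℝ (Fin n)) (f : ℝ → ℝ) (ls : ℝ)
    (u : ℝ → EuclideanSpace ℝ (Fin n) → ℝ) (us : EuclideanSpace ℝ (Fin n) → ℝ) : Prop where
  pos : 0 < ls
  minimal : ∀ l, 0 < l → l < ls → IsMinimalSolution Ω c f l (u l)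
  increasing : ∀ l l', 0 < l → l < l' → l' < ls → ∀ x ∈ closure Ω, u l x ≤ u l' x
  no_solution : ∀ l, ls < l → ¬ ∃ v, IsSolution Ω c f l v
  limit : ∀ x ∈ closure Ω, Tendsto (fun l => u l x) (𝓝[<] ls) (𝓝 (us x))

/-- The extremal solution is classical: `sup_Ω u* < 1`. It is singular otherwise. -/
def IsClassical {n : ℕ} (Ω : Set (EuclideanSpace ℝ (Fin n)))
    (us : EuclideanSpace ℝ (Fin n) → ℝ) : Prop :=
  ∃ m : ℝ, m < 1 ∧ ∀ x ∈ Ω, us x ≤ m

/-- `N` is the critical dimension of `f` (for `c ≡ 0`): extremal solutions are classical on all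
bounded smooth domains of `ℝⁿ`, `2 ≤ n < N`, and singular on some bounded smooth domain of
`ℝ^N`. -/
def IsCriticalDimension (f : ℝ → ℝ) (N : ℕ) : Prop :=
  2 ≤ N ∧
  (∀ n : ℕ, 2 ≤ n → n < N → ∀ Ω : Set (EuclideanSpace ℝ (Fin n)), IsSmoothBoundedDomain Ω →
    ∀ (ls : ℝ) (u : ℝ → EuclideanSpace ℝ (Fin n) → ℝ) (us : EuclideanSpace ℝ (Fin n) → ℝ),
      IsExtremal Ω (fun _ => 0) f ls u us → IsClassical Ω us) ∧
  ∃ Ω : Set (EuclideanSpace ℝ (Fin N)), IsSmoothBoundedDomain Ω ∧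
    ∃ (ls : ℝ) (u : ℝ → EuclideanSpace ℝ (Fin N) → ℝ) (us : EuclideanSpace ℝ (Fin N) → ℝ),
      IsExtremal Ω (fun _ => 0) f ls u us ∧ ¬ IsClassical Ω us

open Pool.Agent.W800.AC

/-! ### the nonlinearity -/

theorem strictMono_ff {K : ℝ} (hK : 0 < K) {a b : ℝ} (hab : a < b) (hb : b < 1) :
    ff K a < ff K b := by
  unfold ff
  have : Real.log (1 - b) < Real.log (1 - a) := Real.log_lt_log (by linarith) (by linarith)
  nlinarith

/-- the tangent inequality -/
theorem ff_tangent {K : ℝ} (hK : 0 < K) {a b : ℝ} (ha : a < 1) (hb : b < 1) :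
    K / (1 - a) * (b - a) ≤ ff K b - ff K a := by
  unfold ff
  have h1 : 0 < 1 - a := by linarith
  have h2 : 0 < 1 - b := by linarith
  have h3 := Real.log_le_sub_one_of_pos (show 0 < (1 - b) / (1 - a) by positivity)
  rw [Real.log_div h2.ne' h1.ne'] at h3
  have h4 : (1 - b) / (1 - a) - 1 = -(b - a) / (1 - a) := by field_simp; ring
  rw [h4] at h3
  have h5 : K / (1 - a) * (b - a) = K * ((b - a) / (1 - a)) := by ring
  rw [h5]
  have h6 : -(b - a) / (1 - a) = -((b - a) / (1 - a)) := by ring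
  rw [h6] at h3
  nlinarith

theorem isTypeS_ff {K : ℝ} (hK : 0 < K) : IsTypeS (ff K) where
  smooth := by
    unfold ff
    refine contDiffOn_const.sub (contDiffOn_const.mul
      ((contDiffOn_const.sub contDiffOn_id).log fun x hx => ?_))
    have := hx.2
    exact (sub_pos.2 this).ne'
  increasing := fun a _ b hb hab => strictMono_ff hK hab hb.2
  convex := by
    refine ⟨convex_Ico 0 1, fun x hx y hy a b ha hb hab => ?_⟩
    have hz : a • x + b • y < 1 := ((convex_Ico (0 : ℝ) 1) hx hy ha hb hab).2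
    have h1 := mul_le_mul_of_nonneg_left (ff_tangent hK hz hx.2) ha
    have h2 := mul_le_mul_of_nonneg_left (ff_tangent hK hz hy.2) hb
    simp only [smul_eq_mul] at *
    have h3 : a * (K / (1 - (a * x + b * y)) * (x - (a * x + b * y))) +
        b * (K / (1 - (a * x + b * y)) * (y - (a * x + b * y))) =
        K / (1 - (a * x + b * y)) * ((a * x + b * y) - (a + b) * (a * x + b * y)) := by ring
    rw [hab, one_mul, sub_self, mul_zero] at h3
    have h4 : a * ff K (a * x + b * y) + b * ff K (a * x + b * y) = ff K (a * x + b * y) := by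
      rw [← add_mul, hab, one_mul]
    linarith
  at_zero := by simp [ff]
  blow_up := by
    unfold ff
    have h1 : Tendsto (fun t : ℝ => 1 - t) (𝓝[<] 1) (𝓝[>] 0) := by
      refine tendsto_nhdsWithin_iff.2 ⟨?_, ?_⟩
      · have : Tendsto (fun t : ℝ => 1 - t) (𝓝 1) (𝓝 (1 - 1)) :=
          (continuous_const.sub continuous_id).tendsto 1
        rw [sub_self] at this
        exact this.mono_left nhdsWithin_le_nhds
      · filter_upwards [self_mem_nhdsWithin] with t ht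
        have ht' : t < 1 := ht
        exact sub_pos.2 ht'
    have h2 := Real.tendsto_log_nhdsGT_zero.comp h1
    have h3 : Tendsto (fun t : ℝ => -(K * Real.log (1 - t))) (𝓝[<] 1) atTop := by
      have := (h2.const_mul_atBot hK)
      exact tendsto_neg_atBot_atTop.comp this
    have h4 := tendsto_atTop_add_const_left _ (1 : ℝ) h3
    refine h4.congr fun t => ?_
    ring

/-! ### the unit ball -/

theorem ball_domain {n : ℕ} (hn : 1 ≤ n) :
    IsSmoothBoundedDomain (ball (0 : EuclideanSpace ℝ (Fin n)) 1) where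
  isOpen := isOpen_ball
  bounded := isBounded_ball
  connected := (convex_ball _ _).isConnected ⟨0, mem_ball_self one_pos⟩
  boundary := by
    intro x hx
    have : Nonempty (Fin n) := ⟨⟨0, hn⟩⟩
    refine ⟨univ, fun y => ‖y‖ ^ 2 - 1, isOpen_univ, mem_univ _, ?_, ?_, ?_, ?_⟩
    · exact ((contDiff_norm_sq ℝ).sub contDiff_const).contDiffOn
    · intro y _ hy h0
      have h1 : HasFDerivAt (fun y : EuclideanSpace ℝ (Fin n) => ‖y‖ ^ 2 - 1)
          (2 • (innerSL ℝ y)) y := ((hasStrictFDerivAt_norm_sq y).hasFDerivAt).sub_const 1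
      rw [h1.fderiv] at h0
      have h2 := congrArg (fun L : EuclideanSpace ℝ (Fin n) →L[ℝ] ℝ => L y) h0
      have h3 : (2 • (innerSL ℝ y)) y = 2 * ‖y‖ ^ 2 := by
        rw [← real_inner_self_eq_norm_sq]
        simp
      rw [h3] at h2
      have h4 : (0 : EuclideanSpace ℝ (Fin n) →L[ℝ] ℝ) y = 0 := rfl
      rw [h4] at h2
      have h5 : ‖y‖ ^ 2 - 1 = 0 := hy
      linarith
    · intro y _
      rw [mem_ball_zero_iff, sub_neg, sq_lt_one_iff₀ (norm_nonneg _)]
    · intro y _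
      rw [frontier_ball _ one_ne_zero, mem_sphere_zero_iff_norm, sub_eq_zero]
      have := norm_nonneg y
      constructor
      · intro h; rw [h]; norm_num
      · intro h; nlinarith

/-! ### radial solutions as solutions in the ball -/

section radial
variable {n : ℕ} {B K l : ℝ} {U : ℝ → ℝ}

theorem contDiff_rad (hU : ContDiff ℝ 2 U) :
    ContDiff ℝ 2 (fun x : EuclideanSpace ℝ (Fin n) => U (‖x‖ ^ 2)) :=
  hU.comp (contDiff_norm_sq ℝ)

/-- the operator on radial functions -/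
theorem op_rad (hU : ContDiff ℝ 2 U) (B : ℝ) (x : EuclideanSpace ℝ (Fin n)) :
    -(Laplacian.laplacian (fun x : EuclideanSpace ℝ (Fin n) => U (‖x‖ ^ 2)) x) +
      fderiv ℝ (fun x : EuclideanSpace ℝ (Fin n) => U (‖x‖ ^ 2)) x (-(B • x)) =
      Lr n B U (‖x‖ ^ 2) := by
  have hd : ∀ s, HasDerivAt U (deriv U s) s := fun s =>
    (hU.differentiable (by norm_num) s).hasDerivAt
  have hU1 : ContDiff ℝ 1 (deriv U) := by
    have := (contDiff_succ_iff_deriv (n := 1) (f := U)).1 (by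
      rw [show ((1 : WithTop ℕ∞) + 1) = 2 by norm_num]; exact hU)
    exact this.2.2
  have hd2 : ∀ s, HasDerivAt (deriv U) (deriv (deriv U) s) s := fun s =>
    (hU1.differentiable (by norm_num) s).hasDerivAt
  have h1 := lap_comp (F := EuclideanSpace ℝ (Fin n)) (U := U) (U' := deriv U)
    (U'' := deriv (deriv U)) 0 x (Eventually.of_forall hd) (hd2 _)
  simp only [sub_zero] at h1
  rw [h1]
  have h2 : HasFDerivAt (fun x : EuclideanSpace ℝ (Fin n) => U (‖x‖ ^ 2))
      (deriv U (‖x‖ ^ 2) • (2 • (innerSL ℝ x))) x :=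
    (hd _).comp_hasFDerivAt x ((hasStrictFDerivAt_norm_sq x).hasFDerivAt)
  rw [h2.fderiv]
  have h3 : (deriv U (‖x‖ ^ 2) • (2 • (innerSL ℝ x))) (-(B • x)) =
      -(2 * B * ‖x‖ ^ 2 * deriv U (‖x‖ ^ 2)) := by
    rw [← real_inner_self_eq_norm_sq]
    simp [inner_neg_right, inner_smul_right, -inner_self_eq_norm_sq_to_K]
    ring
  rw [h3]
  unfold Lr
  simp
  ring

theorem sq_mem {x : EuclideanSpace ℝ (Fin n)} (hx : x ∈ closure (ball (0 : EuclideanSpace ℝ (Fin n)) 1)) :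
    ‖x‖ ^ 2 ∈ Icc (0 : ℝ) 1 := by
  have h1 := closure_ball_subset_closedBall hx
  rw [mem_closedBall_zero_iff] at h1
  exact ⟨sq_nonneg _, pow_le_one₀ (norm_nonneg _) h1⟩

theorem isSolution_rad (h : RadSol n B K l U) :
    IsSolution (ball (0 : EuclideanSpace ℝ (Fin n)) 1) (fun x => -(B • x)) (ff K) l
      (fun x => U (‖x‖ ^ 2)) where
  contDiffOn := (contDiff_rad h.c2).contDiffOn
  continuousOn := (contDiff_rad h.c2).continuous.continuousOn
  nonneg := fun x hx => h.nonneg _ (sq_mem (subset_closure hx))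
  lt_one := fun x hx => h.lt_one _ (sq_mem (subset_closure hx))
  equation := fun x hx => by rw [op_rad h.c2, h.eq _ (sq_mem (subset_closure hx))]
  boundary := fun x hx => by
    rw [frontier_ball _ one_ne_zero, mem_sphere_zero_iff_norm] at hx
    simp only [hx]
    rw [one_pow, h.bdry]

/-- comparison of a radial solution with an arbitrary solution at a larger parameter -/
theorem compare (hK : 0 < K) (hst : StabHyp n B K) (hl : 0 < l) (h : RadSol n B K l U)
    {l' : ℝ} (hll : l ≤ l') {v : EuclideanSpace ℝ (Fin n) → ℝ}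
    (hv : IsSolution (ball (0 : EuclideanSpace ℝ (Fin n)) 1) (fun x => -(B • x)) (ff K) l' v) :
    ∀ x ∈ closure (ball (0 : EuclideanSpace ℝ (Fin n)) 1), U (‖x‖ ^ 2) ≤ v x := by
  -- `U ≤ 1 - δ`
  obtain ⟨δ, hδ, hUδ⟩ : ∃ δ > 0, ∀ s ∈ Icc (0 : ℝ) 1, U s ≤ 1 - δ := by
    obtain ⟨a, ha, hmax⟩ := isCompact_Icc.exists_isMaxOn (⟨0, le_rfl, zero_le_one⟩ :
      (Icc (0 : ℝ) 1).Nonempty) h.c2.continuous.continuousOn
    refine ⟨1 - U a, by linarith [h.lt_one a ha], fun s hs => ?_⟩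
    have : U s ≤ U a := hmax hs
    linarith
  obtain ⟨φ, hφ, hφ0, hφs⟩ := hst δ hδ
  have hφs := hφs l U hl h hUδ
  set Ω := ball (0 : EuclideanSpace ℝ (Fin n)) 1 with hΩ
  have hcomp : IsCompact (closure Ω) := isBounded_ball.isCompact_closure
  set w : EuclideanSpace ℝ (Fin n) → ℝ := fun x => U (‖x‖ ^ 2) - v x with hw
  set Φ : EuclideanSpace ℝ (Fin n) → ℝ := fun x => φ (‖x‖ ^ 2) with hΦ
  have hΦ0 : ∀ x, 0 < Φ x := fun x => hφ0 _
  have hwc : ContinuousOn w (closure Ω) :=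
    (contDiff_rad h.c2).continuous.continuousOn.sub hv.continuousOn
  have hψc : ContinuousOn (fun x => w x / Φ x) (closure Ω) :=
    hwc.div (contDiff_rad hφ).continuous.continuousOn fun x _ => (hΦ0 x).ne'
  intro x hx
  obtain ⟨y, hy, hmax⟩ := hcomp.exists_isMaxOn ⟨x, hx⟩ hψc
  by_contra hcon
  rw [not_le] at hcon
  have hwx : 0 < w x := by simp only [hw]; linarith
  set m := w y / Φ y with hm
  have hm0 : 0 < m := lt_of_lt_of_le (div_pos hwx (hΦ0 x)) (hmax hx)
  have hwy : w y = m * Φ y := by rw [hm]; field_simp [(hΦ0 y).ne']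
  have hyΩ : y ∈ Ω := by
    by_contra hyn
    have hyf : y ∈ frontier Ω := by
      rw [frontier, isOpen_ball.interior_eq]; exact ⟨hy, hyn⟩
    have h1 := (isSolution_rad h).boundary y hyf
    have h2 := hv.boundary y hyf
    have h3 : w y = 0 := by simp only [hw]; rw [h2, sub_zero]; exact h1
    rw [h3] at hwy
    have := mul_pos hm0 (hΦ0 y)
    linarith
  -- `Z = mΦ - w` has a local minimum at `y`
  set Z : EuclideanSpace ℝ (Fin n) → ℝ := fun x => (m * Φ x - U (‖x‖ ^ 2)) + v x with hZ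
  have hloc : IsLocalMin Z y := by
    filter_upwards [isOpen_ball.mem_nhds hyΩ] with z hz
    have h1 : w z / Φ z ≤ m := hmax (subset_closure hz)
    rw [div_le_iff₀ (hΦ0 z)] at h1
    have h2 : Z y = 0 := by simp only [hZ]; simp only [hw] at hwy; linarith
    rw [h2]
    simp only [hZ]
    simp only [hw] at h1
    linarith
  set G : ℝ → ℝ := fun s => (-1 : ℝ) * U s + m * φ s with hG
  have hZG : Z = fun x => (fun x : EuclideanSpace ℝ (Fin n) => G (‖x‖ ^ 2)) x + v x := by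
    funext x; simp only [hZ, hG, hΦ]; ring
  have hGc : ContDiff ℝ 2 G := (contDiff_const.mul h.c2).add (contDiff_const.mul hφ)
  have hv2 : ContDiffAt ℝ 2 v y := hv.contDiffOn.contDiffAt (isOpen_ball.mem_nhds hyΩ)
  have hG2 : ContDiffAt ℝ 2 (fun x : EuclideanSpace ℝ (Fin n) => G (‖x‖ ^ 2)) y :=
    (contDiff_rad hGc).contDiffAt
  have hlap := Pool.Agent.H947R3.lap_nonneg_of_isLocalMin (s := Z) (x := y)
    (by rw [hZG]; exact hG2.add hv2) hloc
  have hgrad : fderiv ℝ Z y = 0 := hloc.fderiv_eq_zero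
  have e1 : Laplacian.laplacian Z y =
      Laplacian.laplacian (fun x : EuclideanSpace ℝ (Fin n) => G (‖x‖ ^ 2)) y +
        Laplacian.laplacian v y := by
    rw [hZG]; exact hG2.laplacian_add hv2
  have e2 : fderiv ℝ Z y = fderiv ℝ (fun x : EuclideanSpace ℝ (Fin n) => G (‖x‖ ^ 2)) y +
      fderiv ℝ v y := by
    rw [hZG]
    exact fderiv_add (hG2.differentiableAt (by norm_num)) (hv2.differentiableAt (by norm_num))
  have e3 := op_rad (n := n) hGc B y
  have e4 := hv.equation y hyΩ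
  have e5 : Lr n B G (‖y‖ ^ 2) = -(Lr n B U (‖y‖ ^ 2)) + m * Lr n B φ (‖y‖ ^ 2) := by
    have h1 := Lr_add_mul (n := n) (B := B) (U := fun s => (-1 : ℝ) * U s) (φ := φ)
      (contDiff_const.mul h.c2) hφ m (‖y‖ ^ 2)
    rw [hG, h1]
    congr 1
    have h2 := Lr_add_mul (n := n) (B := B) (U := fun _ => (0 : ℝ)) (φ := U)
      contDiff_const h.c2 (-1) (‖y‖ ^ 2)
    simp only [zero_add] at h2
    rw [h2]
    unfold Lr
    simp
  have hs := sq_mem (subset_closure hyΩ)
  have e6 := h.eq _ hs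
  have e7 := hφs _ hs
  -- total
  have e8 : -(Laplacian.laplacian Z y) + fderiv ℝ Z y (-(B • y)) =
      (-(l * ff K (U (‖y‖ ^ 2))) + m * Lr n B φ (‖y‖ ^ 2)) + l' * ff K (v y) := by
    rw [e1, e2, ← e4, ← e6, ← e5, ← e3]
    simp only [add_apply]
    ring
  rw [hgrad] at e8
  have e9 : (0 : EuclideanSpace ℝ (Fin n) →L[ℝ] ℝ) (-(B • y)) = 0 := rfl
  rw [e9, add_zero] at e8
  -- the contradiction
  have hU1 := h.lt_one _ hs
  have hv0 := hv.nonneg y hyΩ
  have hv1 := hv.lt_one y hyΩ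
  have f1 := ff_tangent hK hU1 hv1
  have f2 := one_le_ff hK.le hv0 hv1
  have hUp : 0 < 1 - U (‖y‖ ^ 2) := by linarith
  have f3 : v y - U (‖y‖ ^ 2) = -(m * Φ y) := by rw [← hwy]; simp only [hw]; ring
  rw [f3] at f1
  have f4 : l * (K / (1 - U (‖y‖ ^ 2)) * -(m * Φ y)) ≤ l * (ff K (v y) - ff K (U (‖y‖ ^ 2))) :=
    mul_le_mul_of_nonneg_left f1 hl.le
  have f5 : l * ff K (v y) ≤ l' * ff K (v y) := mul_le_mul_of_nonneg_right hll (by linarith)
  have f6 : m * (2 * (l * (K / (1 - U (‖y‖ ^ 2)))) * φ (‖y‖ ^ 2)) ≤ m * Lr n B φ (‖y‖ ^ 2) :=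
    mul_le_mul_of_nonneg_left e7 hm0.le
  have f7 : 0 < l * (K / (1 - U (‖y‖ ^ 2))) * (m * Φ y) := by
    have := hΦ0 y
    positivity
  have f8 : m * (2 * (l * (K / (1 - U (‖y‖ ^ 2)))) * φ (‖y‖ ^ 2)) =
      2 * (l * (K / (1 - U (‖y‖ ^ 2))) * (m * Φ y)) := by simp only [hΦ]; ring
  rw [f8] at f6
  have f9 : l * (K / (1 - U (‖y‖ ^ 2)) * -(m * Φ y)) =
      -(l * (K / (1 - U (‖y‖ ^ 2))) * (m * Φ y)) := by ring
  rw [f9] at f4
  linarith

/-- the extremal solution on the unit ball exists and is singular -/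
theorem radial_extremal (hn : 3 ≤ n) (hB : 0 ≤ B) (hK : 0 < K) (hst : StabHyp n B K) :
    ∃ (ls : ℝ) (u : ℝ → EuclideanSpace ℝ (Fin n) → ℝ) (us : EuclideanSpace ℝ (Fin n) → ℝ),
      IsExtremal (ball (0 : EuclideanSpace ℝ (Fin n)) 1) (fun x => -(B • x)) (ff K) ls u us ∧
      ¬ IsClassical (ball (0 : EuclideanSpace ℝ (Fin n)) 1) us := by
  classical
  set Ω := ball (0 : EuclideanSpace ℝ (Fin n)) 1 with hΩ
  set ls := Lam n B K with hls
  have hls0 : 0 < ls := Lam_pos hn hB hK.le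
  have hex : ∀ l, ∃ U : ℝ → ℝ, 0 < l → l < ls → RadSol n B K l U := by
    intro l
    by_cases h : 0 < l ∧ l < ls
    · obtain ⟨-, U, hU⟩ := mem_SS hn hB hK.le h.1 h.2
      exact ⟨U, fun _ _ => hU⟩
    · exact ⟨0, fun h1 h2 => absurd ⟨h1, h2⟩ h⟩
  choose V hV using hex
  set u : ℝ → EuclideanSpace ℝ (Fin n) → ℝ := fun l x => V l (‖x‖ ^ 2) with hu
  have hsol : ∀ l, 0 < l → l < ls → IsSolution Ω (fun x => -(B • x)) (ff K) l (u l) :=
    fun l h0 h1 => isSolution_rad (hV l h0 h1)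
  have hinc : ∀ l l', 0 < l → l ≤ l' → l' < ls → ∀ x ∈ closure Ω, u l x ≤ u l' x :=
    fun l l' h0 h1 h2 => compare hK hst h0 (hV l h0 (lt_of_le_of_lt h1 h2)) h1
      (hsol l' (lt_of_lt_of_le h0 h1) h2)
  have hlt : ∀ l, 0 < l → l < ls → ∀ x ∈ closure Ω, u l x < 1 := fun l h0 h1 x hx =>
    (hV l h0 h1).lt_one _ (sq_mem hx)
  set us : EuclideanSpace ℝ (Fin n) → ℝ := fun x => sSup ((fun l => u l x) '' Ioo 0 ls) with hus
  have hne : (Ioo (0 : ℝ) ls).Nonempty := nonempty_Ioo.2 hls0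
  have hbdd : ∀ x ∈ closure Ω, BddAbove ((fun l => u l x) '' Ioo 0 ls) := by
    intro x hx
    refine ⟨1, ?_⟩
    rintro _ ⟨l, hl, rfl⟩
    exact (hlt l hl.1 hl.2 x hx).le
  have h0mem : (0 : EuclideanSpace ℝ (Fin n)) ∈ Ω := mem_ball_self one_pos
  have h0cl := subset_closure h0mem
  refine ⟨ls, u, us, ⟨hls0, ?_, ?_, ?_, ?_⟩, ?_⟩
  · intro l h0 h1
    exact ⟨hsol l h0 h1, fun v hv => compare hK hst h0 (hV l h0 h1) le_rfl hv⟩
  · intro l l' h0 h1 h2
    exact hinc l l' h0 h1.le h2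
  · rintro l hl ⟨v, hv⟩
    have hv1 := hv.lt_one 0 h0mem
    obtain ⟨l1, hl10, hl1, hb⟩ := blowup hn hB hK hst (δ := 1 - v 0) (by linarith)
    set l2 := (l1 + ls) / 2 with hl2
    have hl2a : l1 < l2 := by rw [hl2]; linarith
    have hl2b : l2 < ls := by rw [hl2]; linarith
    have hl20 : 0 < l2 := hl10.trans hl2a
    have h1 := hb l2 (V l2) hl2a (hV l2 hl20 hl2b)
    have h2 := compare hK hst hl20 (hV l2 hl20 hl2b) (hl2b.trans hl).le hv 0 h0cl
    rw [norm_zero, zero_pow two_ne_zero] at h2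
    linarith
  · intro x hx
    refine MonotoneOn.tendsto_nhdsWithin_Ioo_left hne ?_ (hbdd x hx)
    intro l hl l' hl' hll
    exact hinc l l' hl.1 hll hl'.2 x hx
  · rintro ⟨m, hm, hle⟩
    obtain ⟨l1, hl10, hl1, hb⟩ := blowup hn hB hK hst (δ := 1 - m) (by linarith)
    set l2 := (l1 + ls) / 2 with hl2
    have hl2a : l1 < l2 := by rw [hl2]; linarith
    have hl2b : l2 < ls := by rw [hl2]; linarith
    have hl20 : 0 < l2 := hl10.trans hl2a
    have h1 := hb l2 (V l2) hl2a (hV l2 hl20 hl2b)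
    have h2 : u l2 0 ≤ us 0 := le_csSup (hbdd 0 h0cl) ⟨l2, ⟨hl20, hl2b⟩, rfl⟩
    have h3 := hle 0 h0mem
    have h4 : u l2 0 = V l2 0 := by simp [hu]
    rw [h4] at h2
    linarith

end radial

/-! ### dimensions two and three, no drift -/

open Pool.Agent.H947R3 (Adm Stable stab_of_pos lap_nonneg_of_isLocalMin)

theorem sol_zero {n : ℕ} {Ω : Set (EuclideanSpace ℝ (Fin n))} {f : ℝ → ℝ} {l : ℝ}
    {u : EuclideanSpace ℝ (Fin n) → ℝ} (h : IsSolution Ω (fun _ => 0) f l u) :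
    ∀ x ∈ Ω, -(Laplacian.laplacian u x) = l * f (u x) := fun x hx => by
  have := h.equation x hx
  simpa using this

theorem dim_two {K : ℝ} (hK : 0 < K) (Ω : Set (EuclideanSpace ℝ (Fin 2)))
    (hΩ : IsSmoothBoundedDomain Ω) (ls : ℝ) (u : ℝ → EuclideanSpace ℝ (Fin 2) → ℝ)
    (us : EuclideanSpace ℝ (Fin 2) → ℝ) (h : IsExtremal Ω (fun _ => 0) (ff K) ls u us) :
    IsClassical Ω us := by
  have hconv : ∀ l v, IsSolution Ω (fun _ => 0) (ff K) l v ↔
      MP_32f00d_an.PlanarExtremalRegular.IsClassicalSolution Ω (ff K) l v := by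
    intro l v
    constructor
    · intro hv
      exact ⟨hv.contDiffOn, hv.continuousOn, hv.nonneg, hv.lt_one, sol_zero hv, hv.boundary⟩
    · intro hv
      exact ⟨hv.contDiffOn, hv.continuousOn, hv.nonneg, hv.lt_one, fun x hx => by
        have := hv.equation x hx
        simpa using this, hv.boundary⟩
  have hT := isTypeS_ff hK
  obtain ⟨-, m, hm, hle⟩ := MP_32f00d_an.PlanarExtremalRegular.result Ω hΩ.isOpen hΩ.bounded (ff K)
    ⟨hT.smooth, hT.increasing.monotoneOn, hT.convex, hT.at_zero, hT.blow_up⟩ ls u us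
    ⟨h.pos, fun l h0 h1 => ⟨(hconv l _).1 (h.minimal l h0 h1).1,
      fun v hv => (h.minimal l h0 h1).2 v ((hconv l v).2 hv)⟩, h.increasing,
      fun l hl ⟨v, hv⟩ => h.no_solution l hl ⟨v, (hconv l v).2 hv⟩, h.limit⟩
  exact ⟨m, hm, fun x hx => hle x (subset_closure hx)⟩

theorem adm_of_sol {n : ℕ} {Ω : Set (EuclideanSpace ℝ (Fin n))} (hΩ : IsOpen Ω)
    (hb : Bornology.IsBounded Ω) {K : ℝ} (hK : 0 < K) {l : ℝ} (hl : 0 < l)
    {u : EuclideanSpace ℝ (Fin n) → ℝ} (h : IsSolution Ω (fun _ => 0) (ff K) l u) : Adm Ω u := by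
  refine ⟨hΩ, hb, h.contDiffOn, h.continuousOn, ?_, h.lt_one, h.boundary⟩
  intro x hx
  rcases (h.nonneg x hx).lt_or_eq with h1 | h1
  · exact h1
  · exfalso
    have hloc : IsLocalMin u x := by
      filter_upwards [hΩ.mem_nhds hx] with y hy
      rw [← h1]; exact h.nonneg y hy
    have h2 := lap_nonneg_of_isLocalMin (h.contDiffOn.contDiffAt (hΩ.mem_nhds hx)) hloc
    have h3 := sol_zero h x hx
    rw [← h1, (isTypeS_ff hK).at_zero] at h3
    linarith

theorem stable_branch {n : ℕ} {Ω : Set (EuclideanSpace ℝ (Fin n))} (hΩ : IsOpen Ω)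
    (hb : Bornology.IsBounded Ω) {K : ℝ} (hK : 0 < K) {ls : ℝ}
    {u : ℝ → EuclideanSpace ℝ (Fin n) → ℝ} {us : EuclideanSpace ℝ (Fin n) → ℝ}
    (h : IsExtremal Ω (fun _ => 0) (ff K) ls u us) {l : ℝ} (h0 : 0 < l) (h1 : l < ls) :
    Stable Ω (fun x => l * (K / (1 - u l x))) := by
  have hsol : ∀ l, 0 < l → l < ls → IsSolution Ω (fun _ => 0) (ff K) l (u l) := fun l h0 h1 =>
    (h.minimal l h0 h1).1
  have hadm : ∀ l, 0 < l → l < ls → Adm Ω (u l) := fun l h0 h1 =>
    adm_of_sol hΩ hb hK h0 (hsol l h0 h1)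
  intro φ hφ hφc hφs
  set l' : ℝ := (l + ls) / 2 with hl'
  have hll' : l < l' := by rw [hl']; linarith
  have hl's : l' < ls := by rw [hl']; linarith
  have h0' : 0 < l' := by linarith
  set z : EuclideanSpace ℝ (Fin n) → ℝ := fun x => u l' x - u l x with hz
  have hzc : ContDiffOn ℝ 2 z Ω := (hadm l' h0' hl's).c2.sub (hadm l h0 h1).c2
  have hzlap : ∀ x ∈ Ω, l * (K / (1 - u l x)) * z x + (l' - l) ≤ -(Laplacian.laplacian z x) := by
    intro x hx
    have e1 : Laplacian.laplacian z x = Laplacian.laplacian (u l') x -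
        Laplacian.laplacian (u l) x :=
      ((hadm l' h0' hl's).c2.contDiffAt (hΩ.mem_nhds hx)).laplacian_sub
        ((hadm l h0 h1).c2.contDiffAt (hΩ.mem_nhds hx))
    have e2 := sol_zero (hsol l' h0' hl's) x hx
    have e3 := sol_zero (hsol l h0 h1) x hx
    have e4 := ff_tangent hK ((hadm l h0 h1).lt x hx) ((hadm l' h0' hl's).lt x hx)
    have e5 := one_le_ff hK.le ((hadm l' h0' hl's).pos x hx).le ((hadm l' h0' hl's).lt x hx)
    have e6 : -(Laplacian.laplacian z x) =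
        l * (ff K (u l' x) - ff K (u l x)) + (l' - l) * ff K (u l' x) := by
      rw [e1]; linarith
    rw [e6]
    have e7 : l * (K / (1 - u l x)) * z x ≤ l * (ff K (u l' x) - ff K (u l x)) := by
      rw [mul_assoc]
      exact mul_le_mul_of_nonneg_left e4 h0.le
    nlinarith
  have hzpos : ∀ x ∈ Ω, 0 < z x := by
    intro x hx
    have hnn : ∀ y ∈ Ω, 0 ≤ z y := fun y hy =>
      sub_nonneg.2 (h.increasing l l' h0 hll' hl's y (subset_closure hy))
    rcases (hnn x hx).lt_or_eq with h2 | h2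
    · exact h2
    · exfalso
      have hloc : IsLocalMin z x := by
        filter_upwards [hΩ.mem_nhds hx] with y hy
        rw [← h2]; exact hnn y hy
      have h3 := lap_nonneg_of_isLocalMin (hzc.contDiffAt (hΩ.mem_nhds hx)) hloc
      have h4 := hzlap x hx
      rw [← h2] at h4
      linarith
  have hVc : ContinuousOn (fun x => l * (K / (1 - u l x))) Ω := by
    refine continuousOn_const.mul (continuousOn_const.div
      (continuousOn_const.sub (hadm l h0 h1).c2.continuousOn) fun x hx => ?_)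
    exact (sub_pos.2 ((hadm l h0 h1).lt x hx)).ne'
  exact stab_of_pos hΩ hzc hzpos hVc (fun x hx => by linarith [hzlap x hx]) hφ hφc hφs

theorem dim_three {K : ℝ} (hK : 0 < K)
    (h3 : ∀ (Ω : Set (EuclideanSpace ℝ (Fin 3))) (u : EuclideanSpace ℝ (Fin 3) → ℝ) (l : ℝ),
      Adm Ω u → 0 < l → (∀ x ∈ Ω, -(Laplacian.laplacian u x) = l * ff K (u x)) →
      Stable Ω (fun x => l * (K / (1 - u x))) → ∀ x ∈ Ω, u x ≤ 1 / 2)
    (Ω : Set (EuclideanSpace ℝ (Fin 3)))
    (hΩ : IsSmoothBoundedDomain Ω) (ls : ℝ) (u : ℝ → EuclideanSpace ℝ (Fin 3) → ℝ)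
    (us : EuclideanSpace ℝ (Fin 3) → ℝ) (h : IsExtremal Ω (fun _ => 0) (ff K) ls u us) :
    IsClassical Ω us := by
  refine ⟨1 / 2, by norm_num, fun x hx => ?_⟩
  refine le_of_tendsto (h.limit x (subset_closure hx)) ?_
  filter_upwards [Ioo_mem_nhdsLT h.pos] with l hl
  have hsol := (h.minimal l hl.1 hl.2).1
  exact h3 Ω (u l) l (adm_of_sol hΩ.isOpen hΩ.bounded hK hl.1 hsol) hl.1 (sol_zero hsol)
    (stable_branch hΩ.isOpen hΩ.bounded hK h hl.1 hl.2) x hx

/-- **Main theorem.** There are an integer `K ≥ 1` and a real `B > 0` such that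
`f(t) = 1 - K log (1 - t)` is of type (S) and has a critical dimension `N_f > 3`, whereas on the
unit ball of `ℝ³` and for the smooth vector field `c(x) = -B x` the extremal solution of
`-Δu + c·∇u = λ f(u)` is singular. -/
theorem result : ∃ (K : ℕ) (B : ℝ), 0 < K ∧ 0 < B ∧
    IsTypeS (fun t => 1 - K * Real.log (1 - t)) ∧
    (∃ N : ℕ, IsCriticalDimension (fun t => 1 - K * Real.log (1 - t)) N ∧ 3 < N) ∧
    IsSmoothBoundedDomain (ball (0 : EuclideanSpace ℝ (Fin 3)) 1) ∧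
    ∃ (ls : ℝ) (u : ℝ → EuclideanSpace ℝ (Fin 3) → ℝ) (us : EuclideanSpace ℝ (Fin 3) → ℝ),
      IsExtremal (ball (0 : EuclideanSpace ℝ (Fin 3)) 1) (fun x => -(B • x))
        (fun t => 1 - K * Real.log (1 - t)) ls u us ∧
      ¬ IsClassical (ball (0 : EuclideanSpace ℝ (Fin 3)) 1) us := by
  classical
  obtain ⟨K0, hK0, h3⟩ := dim3
  obtain ⟨K, hK⟩ := exists_nat_ge K0
  have hKr : (0 : ℝ) < K := lt_of_lt_of_le hK0 hK
  have hKn : 0 < K := by exact_mod_cast hKr
  have hK1 : (1 : ℝ) ≤ K := by exact_mod_cast hKn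
  have h3K := h3 K hK
  -- the drift
  set B : ℝ := 3 * (Real.exp (4 * K * Real.exp 96) - 1) with hB
  have hexp : 1 < Real.exp (4 * K * Real.exp 96) := Real.one_lt_exp_iff.2 (by positivity)
  have hB0 : 0 < B := by rw [hB]; linarith
  have hlog : Real.log (1 + B / 3) = 4 * K * Real.exp 96 := by
    have : 1 + B / 3 = Real.exp (4 * K * Real.exp 96) := by rw [hB]; ring
    rw [this, Real.log_exp]
  have hfe : (fun t : ℝ => 1 - (K : ℝ) * Real.log (1 - t)) = ff K := rfl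
  refine ⟨K, B, hKn, hB0, ?_⟩
  rw [hfe]
  refine ⟨isTypeS_ff hKr, ?_, ball_domain (by norm_num), ?_⟩
  · -- the critical dimension
    let P : ℕ → Prop := fun N => 2 ≤ N ∧ ∃ Ω : Set (EuclideanSpace ℝ (Fin N)),
      IsSmoothBoundedDomain Ω ∧
      ∃ (ls : ℝ) (u : ℝ → EuclideanSpace ℝ (Fin N) → ℝ) (us : EuclideanSpace ℝ (Fin N) → ℝ),
        IsExtremal Ω (fun _ => 0) (ff K) ls u us ∧ ¬ IsClassical Ω us
    have hPex : ∃ N, P N := by
      refine ⟨36 * K, by omega, ball (0 : EuclideanSpace ℝ (Fin (36 * K))) 1,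
        ball_domain (by omega), ?_⟩
      have hn : 3 ≤ 36 * K := by omega
      have hst : StabHyp (36 * K) 0 K := by
        refine stabHyp_high hn hKr ?_
        push_cast
        nlinarith
      obtain ⟨ls, u, us, h1, h2⟩ := radial_extremal hn le_rfl hKr hst
      refine ⟨ls, u, us, ?_, h2⟩
      have e : (fun _ : EuclideanSpace ℝ (Fin (36 * K)) => (0 : EuclideanSpace ℝ (Fin (36 * K)))) =
          fun x => -((0 : ℝ) • x) := by funext x; simp
      rw [e]
      exact h1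
    refine ⟨Nat.find hPex, ⟨(Nat.find_spec hPex).1, ?_, (Nat.find_spec hPex).2⟩, ?_⟩
    · intro n h2 hlt Ω hΩ ls u us hext
      by_contra hcon
      exact Nat.find_min hPex hlt ⟨h2, Ω, hΩ, ls, u, us, hext, hcon⟩
    · rw [Nat.lt_find_iff]
      rintro m hm ⟨h2, Ω, hΩ, ls, u, us, hext, hcon⟩
      interval_cases m
      · exact hcon (dim_two hKr Ω hΩ ls u us hext)
      · exact hcon (dim_three hKr h3K Ω hΩ ls u us hext)
  · exact radial_extremal le_rfl hB0.le hKr (stabHyp_drift hKr hlog hB0)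

end Pool.Agent.Results.MP_2166fc_an.AdvectionLowersDimension
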